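import Pool.Agent.Mot.Len

/-!
# Objects with complex multiplication (MP_6c4da4_ag, by helper83)
-/

open CategoryTheory MonoidalCategory BraidedCategory Limits Mot

universe v u

namespace MotC

noncomputable section

set_option linter.unusedSectionVars false

variable {C : Type u} [Category.{v} C] [Abelian C] [Linear ℚ C] [MonoidalCategory C]
  [SymmetricCategory C] [MonoidalPreadditive C] [MonoidalLinear ℚ C] [RightRigidCategory C]
variable (W : Frob C)

lemma mult_le_tv (X : C) : W.mult X ≤ W.tv X := by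
  classical
  have h1 : W.ν X 1 = (W.mult X : ℤ) := by
    unfold Frob.ν nu Frob.mult
    rw [Multiset.count_eq_zero.mpr (W.odd X)]
    simp
  by_cases h : (1 : ℂ) ∈ W.S X
  · have h2 : (W.ν X 1).natAbs ≤ W.tv X := by
      unfold Frob.tv
      exact Finset.single_le_sum (f := fun z => (W.ν X z).natAbs) (fun _ _ => Nat.zero_le _) h
    rw [h1] at h2
    simpa using h2
  · have h2 := W.ν_of_notMem h
    rw [h1] at h2
    omega

/-- a section outside a large space of sections is not numerically trivial -/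
lemma not_numTrivial {X : C} (h : W.tv X ≤ Module.finrank ℚ (𝟙_ C ⟶ X)) (f : 𝟙_ C ⟶ X)
    (hf : f ≠ 0) : ∃ g : X ⟶ 𝟙_ C, f ≫ g = 𝟙 (𝟙_ C) := by
  have hfin := W.finite_hom (𝟙_ C) X
  obtain ⟨U, hU⟩ := Submodule.exists_isCompl (Submodule.span ℚ {f})
  have hd := Submodule.finrank_add_eq_of_isCompl hU
  have h1 : Module.finrank ℚ (Submodule.span ℚ {f}) = 1 := finrank_span_singleton hf
  set v : Fin (Module.finrank ℚ U) → (𝟙_ C ⟶ X) := fun i => (Module.finBasis ℚ U i : 𝟙_ C ⟶ X)
    with hv
  have hvi : LinearIndependent ℚ v :=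
    (Module.finBasis ℚ U).linearIndependent.map' U.subtype (Submodule.ker_subtype U)
  obtain ⟨Z, π, hπ, hm, h2, -⟩ := W.divide (X := X) _ v hvi
  have hfπ : f ≫ π ≠ 0 := by
    intro h0
    have h3 := h2 f h0
    have h4 : Submodule.span ℚ (Set.range v) ≤ U := by
      rw [Submodule.span_le]
      rintro _ ⟨i, rfl⟩
      exact (Module.finBasis ℚ U i).2
    have h5 : f ∈ Submodule.span ℚ {f} ⊓ U := ⟨Submodule.mem_span_singleton_self f, h4 h3⟩
    rw [hU.inf_eq_bot] at h5
    exact hf ((Submodule.mem_bot ℚ).mp h5)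
  have := W.simple_unit
  have hmono : Mono (f ≫ π) := mono_of_nonzero_from_simple hfπ
  have hS : (ShortComplex.mk (f ≫ π) (cokernel.π (f ≫ π)) (cokernel.condition (f ≫ π))).ShortExact :=
    { exact := ShortComplex.exact_cokernel _
      mono_f := hmono
      epi_g := inferInstanceAs (Epi (cokernel.π _)) }
  have hK : (ShortComplex.mk (kernel.ι π) π (kernel.condition π)).ShortExact :=
    { exact := ShortComplex.exact_kernel π
      mono_f := inferInstanceAs (Mono (kernel.ι π))
      epi_g := hπ }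
  have e1 := W.tv_add hS
  change W.tv Z = W.tv (𝟙_ C) + W.tv (cokernel (f ≫ π)) at e1
  have e2 := W.tv_add hK
  change W.tv X = W.tv (kernel π) + W.tv Z at e2
  have e3 := W.mult_add hK
  change W.mult X = W.mult (kernel π) + W.mult Z at e3
  have e4 := mult_le_tv W (kernel π)
  have e5 := mult_le_tv W (𝟙_ C)
  rw [W.mult_unit] at e5
  have hz : IsZero (cokernel (f ≫ π)) := by
    by_contra h3
    have := W.tv_pos h3
    omega
  have hepi : Epi (f ≫ π) := Abelian.epi_of_cokernel_π_eq_zero _ (hz.eq_of_tgt _ _)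
  have hiso : IsIso (f ≫ π) := isIso_of_mono_of_epi _
  refine ⟨π ≫ inv (f ≫ π), ?_⟩
  rw [← Category.assoc, IsIso.hom_inv_id]

lemma tv_unit : W.tv (𝟙_ C) ≤ 1 := by
  have h1 := W.t_unit
  have h2 : ∀ z, W.ν (𝟙_ C) z = if z = 1 then 1 else 0 := by
    intro z
    apply W.ν_unique (𝟙_ C) (fun z => if z = 1 then 1 else 0) {1}
    · intro w hw
      rw [Finset.mem_singleton] at hw
      rw [if_neg hw]
    · intro k
      rw [h1 k, Finset.sum_singleton, if_pos rfl]
      simp
  rw [W.tv_sum (𝟙_ C) (W.S (𝟙_ C) ∪ {1}) Finset.subset_union_left]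
  rw [Finset.sum_eq_single 1]
  · rw [h2, if_pos rfl]
    simp
  · intro z _ hz
    rw [h2, if_neg hz]
    rfl
  · intro h
    exact absurd (Finset.mem_union_right _ (Finset.mem_singleton_self 1)) h

/-- when there are as many sections as the total multiplicity, the object is a sum of copies of
the unit -/
lemma sum_units (n : ℕ) : ∀ X : C, W.tv X = n → n ≤ Module.finrank ℚ (𝟙_ C ⟶ X) →
    ∃ (a : Fin n → (𝟙_ C ⟶ X)) (b : Fin n → (X ⟶ 𝟙_ C)),
      (∀ i j, a i ≫ b j = if i = j then 𝟙 (𝟙_ C) else 0) ∧ ∑ i, b i ≫ a i = 𝟙 X := by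
  induction n with
  | zero =>
    intro X hX _
    have h1 : IsZero X := by
      by_contra h2
      have := W.tv_pos h2
      omega
    exact ⟨fun i => i.elim0, fun i => i.elim0, fun i => i.elim0, h1.eq_of_src _ _⟩
  | succ n ih =>
    intro X hX hn
    have hfin := W.finite_hom (𝟙_ C) X
    have hne : ∃ f : 𝟙_ C ⟶ X, f ≠ 0 := by
      by_contra hcon
      push Not at hcon
      have h1 : Subsingleton (𝟙_ C ⟶ X) := ⟨fun a b => by rw [hcon a, hcon b]⟩
      rw [Module.finrank_zero_of_subsingleton] at hn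
      omega
    obtain ⟨f, hf⟩ := hne
    obtain ⟨g, hg⟩ := not_numTrivial W (X := X) (by omega) f hf
    have hepi : Epi g := by
      have : IsSplitEpi g := ⟨⟨⟨f, hg⟩⟩⟩
      infer_instance
    have hK : (ShortComplex.mk (kernel.ι g) g (kernel.condition g)).ShortExact :=
      { exact := ShortComplex.exact_kernel g
        mono_f := inferInstanceAs (Mono (kernel.ι g))
        epi_g := hepi }
    have e2 := W.tv_add hK
    change W.tv X = W.tv (kernel g) + W.tv (𝟙_ C) at e2
    have e5 := mult_le_tv W (𝟙_ C)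
    rw [W.mult_unit] at e5
    have e6 := tv_unit W
    have hd : n ≤ Module.finrank ℚ (𝟙_ C ⟶ kernel g) := by
      have hfk := W.finite_hom (𝟙_ C) (kernel g)
      set φ : (𝟙_ C ⟶ X) →ₗ[ℚ] (𝟙_ C ⟶ 𝟙_ C) := Linear.rightComp ℚ (𝟙_ C) g with hφ
      have h1 := LinearMap.finrank_range_add_finrank_ker φ
      have hf1 := W.finite_hom (𝟙_ C) (𝟙_ C)
      have h2 : Module.finrank ℚ (LinearMap.range φ) ≤ 1 := by
        have h3 := Submodule.finrank_le (LinearMap.range φ)
        have h4 := Module.finrank_le_of_rank_le (W.rank_le (𝟙_ C))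
        rw [W.mult_unit] at h4
        omega
      have h3 : Module.finrank ℚ (LinearMap.ker φ) ≤ Module.finrank ℚ (𝟙_ C ⟶ kernel g) := by
        have h4 : LinearMap.ker φ ≤ LinearMap.range (Linear.rightComp ℚ (𝟙_ C) (kernel.ι g)) := by
          intro a ha
          rw [LinearMap.mem_ker] at ha
          exact ⟨kernel.lift g a ha, kernel.lift_ι _ _ _⟩
        exact (Submodule.finrank_mono h4).trans
          (LinearMap.finrank_range_le (Linear.rightComp ℚ (𝟙_ C) (kernel.ι g)))
      omega
    obtain ⟨a, b, hab, hs⟩ := ih (kernel g) (by omega) hd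
    have hq0 : (𝟙 X - g ≫ f) ≫ g = 0 := by
      rw [Preadditive.sub_comp, Category.id_comp, Category.assoc, hg, Category.comp_id, sub_self]
    set q : X ⟶ kernel g := kernel.lift g (𝟙 X - g ≫ f) hq0 with hq
    have hqk : q ≫ kernel.ι g = 𝟙 X - g ≫ f := kernel.lift_ι _ _ _
    have hkq : kernel.ι g ≫ q = 𝟙 _ := by
      rw [← cancel_mono (kernel.ι g), Category.assoc, hqk, Preadditive.comp_sub, Category.comp_id,
        ← Category.assoc, kernel.condition, Limits.zero_comp, sub_zero, Category.id_comp]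
    have hfq : f ≫ q = 0 := by
      rw [← cancel_mono (kernel.ι g), Category.assoc, hqk, Preadditive.comp_sub, Category.comp_id,
        ← Category.assoc, hg, Category.id_comp, sub_self, Limits.zero_comp]
    refine ⟨Fin.cons f (fun i => a i ≫ kernel.ι g), Fin.cons g (fun i => q ≫ b i), ?_, ?_⟩
    · intro i j
      refine Fin.cases ?_ (fun i => ?_) i
      · refine Fin.cases ?_ (fun j => ?_) j
        · simpa using hg
        · rw [Fin.cons_zero, Fin.cons_succ, ← Category.assoc, hfq, Limits.zero_comp,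
            if_neg (Fin.succ_ne_zero j).symm]
      · refine Fin.cases ?_ (fun j => ?_) j
        · rw [Fin.cons_zero, Fin.cons_succ, Category.assoc, kernel.condition, Limits.comp_zero,
            if_neg (Fin.succ_ne_zero i)]
        · rw [Fin.cons_succ, Fin.cons_succ, Category.assoc, ← Category.assoc (kernel.ι g), hkq,
            Category.id_comp, hab]
          simp
    · rw [Fin.sum_univ_succ]
      simp only [Fin.cons_zero, Fin.cons_succ]
      have h1 : ∀ i, (q ≫ b i) ≫ a i ≫ kernel.ι g = q ≫ (b i ≫ a i) ≫ kernel.ι g := by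
        intro i
        simp only [Category.assoc]
      rw [Finset.sum_congr rfl (fun i _ => h1 i), ← Preadditive.comp_sum, ← Preadditive.sum_comp,
        hs, Category.id_comp, hqk]
      abel

/-- complex multiplication: an object with a division algebra of endomorphisms of dimension at
least its total multiplicity has no non-zero section, or is a sum of copies of the unit -/
theorem cm {X : C} (D : Subalgebra ℚ (End X)) (hD : ∀ a ∈ D, a ≠ 0 → IsUnit a)
    (hd : Multiset.card (W.α X) + Multiset.card (W.β X) ≤ Module.finrank ℚ D)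
    (f : 𝟙_ C ⟶ X) (hf : f ≠ 0) :
    ∃ (n : ℕ) (a : Fin n → (𝟙_ C ⟶ X)) (b : Fin n → (X ⟶ 𝟙_ C)),
      (∀ i j, a i ≫ b j = if i = j then 𝟙 (𝟙_ C) else 0) ∧ ∑ i, b i ≫ a i = 𝟙 X := by
  have hfin := W.finite_hom (𝟙_ C) X
  set ψ : (X ⟶ X) →ₗ[ℚ] (𝟙_ C ⟶ X) := Linear.leftComp ℚ X f with hψ
  set φ : D →ₗ[ℚ] (𝟙_ C ⟶ X) := ψ ∘ₗ D.val.toLinearMap with hφ
  have hinj : Function.Injective φ := by
    rw [← LinearMap.ker_eq_bot, LinearMap.ker_eq_bot']
    intro a ha
    by_contra hne
    have h1 : (a : End X) ≠ 0 := fun h => hne (Subtype.ext h)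
    obtain ⟨u, hu⟩ := hD a a.2 h1
    have h2 : f ≫ (a : End X) = 0 := ha
    have h3 : (a : End X) ≫ (↑u⁻¹ : End X) = 𝟙 X := by
      rw [← hu]
      exact u.inv_mul
    apply hf
    have h4 : f = f ≫ ((a : End X) ≫ (↑u⁻¹ : End X)) := by
      rw [h3, Category.comp_id]
    rw [h4, ← Category.assoc, h2, Limits.zero_comp]
  have h1 := LinearMap.finrank_le_finrank_of_injective hinj
  have h2 := W.tv_le X
  obtain ⟨a, b, h⟩ := sum_units W (W.tv X) X rfl (by omega)
  exact ⟨W.tv X, a, b, h⟩

end

end MotC
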