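import Pool.Agent.MotC.Pow

/-!
# Additive monoidal functors reflect isomorphisms (MP_6c4da4_ag, by helper83)
-/

open CategoryTheory MonoidalCategory BraidedCategory Limits Mot

universe v u v' u'

namespace MotC

noncomputable section

set_option linter.unusedSectionVars false

variable {C : Type u} [Category.{v} C] [Abelian C] [Linear ℚ C] [MonoidalCategory C]
  [SymmetricCategory C] [MonoidalPreadditive C] [MonoidalLinear ℚ C] [RightRigidCategory C]
variable (W : Frob C)

/-- the trace of the projector of degree `n + 1` when the dimension is `ε` times `N` -/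
lemma cc_eval {ε : ℚ} (hε : ε * ε = 1) (X : C) (N : ℕ) (h : W.t X 0 = ε * N) (n k : ℕ) :
    ((n + 1).factorial : ℚ) * W.cc ε X 0 n k =
      ε ^ (n + 1) * ∏ i ∈ Finset.range (n + 1), ((N : ℚ) - i) := by
  induction n generalizing k with
  | zero =>
    rw [W.cc_zero, Nat.zero_mul, h]
    simp
  | succ n ih =>
    have h1 := W.cc_succ hε X 0 n k
    rw [Nat.zero_mul, h] at h1
    have h2 := ih 1
    have h3 := ih (k + 1)
    rw [Finset.prod_range_succ]
    have h4 : (((n + 1 + 1).factorial : ℕ) : ℚ) = ((n : ℚ) + 2) * ((n + 1).factorial : ℚ) := by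
      rw [Nat.factorial_succ]
      push_cast
      ring
    rw [h4]
    have e1 : ((n : ℚ) + 2) * ((n + 1).factorial : ℚ) * W.cc ε X 0 (n + 1) k =
        ((n + 1).factorial : ℚ) * (((n : ℚ) + 2) * W.cc ε X 0 (n + 1) k) := by ring
    rw [e1, h1]
    have e2 : ((n + 1).factorial : ℚ) * (W.cc ε X 0 n 1 * (ε * N) -
        ε * (((n : ℚ) + 1) * W.cc ε X 0 n (k + 1))) =
        (((n + 1).factorial : ℚ) * W.cc ε X 0 n 1) * (ε * N) -
          ε * (((n : ℚ) + 1) * (((n + 1).factorial : ℚ) * W.cc ε X 0 n (k + 1))) := by ring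
    rw [e2, h2, h3]
    push_cast
    ring

/-- the projector in the top degree has non-zero trace -/
lemma tr_top {ε : ℚ} (hε : ε * ε = 1) (X : C) (n : ℕ) (h : W.t X 0 = ε * ((n + 1 : ℕ) : ℚ)) :
    tr (T X (n + 1)) (pj ε X (n + 1)) ≠ 0 := by
  intro h0
  have h1 := cc_eval W hε X (n + 1) h n 1
  have h2 : W.cc ε X 0 n 1 = 0 := by
    unfold Frob.cc
    have e1 : (pj ε X (n + 1) ≫ (W.Fp (T X n) 0 ⊗ₘ W.Fp X (0 * 1)) :
        (T X n ⊗ X) ⟶ (T X n ⊗ X)) = pj ε X (n + 1) := by
      have e2 : (W.Fp (T X n) 0 ⊗ₘ W.Fp X (0 * 1)) = 𝟙 (T X n ⊗ X) := by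
        have e3 : W.Fp (T X n) 0 = 𝟙 _ := rfl
        have e4 : W.Fp X (0 * 1) = 𝟙 _ := rfl
        rw [e3, e4]
        exact MonoidalCategory.id_tensorHom_id _ _
      rw [e2]
      exact Category.comp_id _
    rw [e1]
    refine (congrArg W.val h0).trans W.val_zero
  rw [h2, mul_zero] at h1
  have h3 : ∏ i ∈ Finset.range (n + 1), (((n + 1 : ℕ) : ℚ) - i) ≠ 0 := by
    rw [Finset.prod_ne_zero_iff]
    intro i hi
    rw [Finset.mem_range] at hi
    have : (i : ℚ) < ((n + 1 : ℕ) : ℚ) := by exact_mod_cast hi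
    linarith
  have h4 : ε ^ (n + 1) ≠ 0 := by
    apply pow_ne_zero
    intro h5
    rw [h5] at hε
    norm_num at hε
  exact mul_ne_zero h4 h3 h1.symm

/-- objects of one type: all net multiplicities have the sign `ε` -/
def Ty (ε : ℤ) (X : C) : Prop := ∀ z, 0 ≤ ε * W.ν X z

lemma ty_gamma {ε : ℤ} (hε : ε = 1 ∨ ε = -1) {X : C} (h : Ty W ε X) :
    ∃ γ : Multiset ℂ, Multiset.card γ = W.tv X ∧
      ∀ n, (W.t X n : ℂ) = ((ε : ℚ) : ℂ) * (γ.map (fun z => z ^ n)).sum := by
  classical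
  refine ⟨∑ z ∈ W.S X, Multiset.replicate (W.ν X z).natAbs z, ?_, ?_⟩
  · rw [Multiset.card_sum]
    unfold Frob.tv
    apply Finset.sum_congr rfl
    intro z _
    rw [Multiset.card_replicate]
  · intro n
    have h1 : ((∑ z ∈ W.S X, Multiset.replicate (W.ν X z).natAbs z).map (fun z => z ^ n)).sum =
        ∑ z ∈ W.S X, ((W.ν X z).natAbs : ℂ) * z ^ n := by
      rw [← Multiset.coe_mapAddMonoidHom, map_sum, ← Multiset.coe_sumAddMonoidHom, map_sum]
      apply Finset.sum_congr rfl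
      intro z _
      rw [Multiset.coe_sumAddMonoidHom, Multiset.coe_mapAddMonoidHom, Multiset.map_replicate,
        Multiset.sum_replicate, nsmul_eq_mul]
    rw [W.t_sum, h1, Finset.mul_sum]
    apply Finset.sum_congr rfl
    intro z _
    have h2 := h z
    have h3 : (W.ν X z : ℂ) = ((ε : ℚ) : ℂ) * ((W.ν X z).natAbs : ℂ) := by
      have h4 : W.ν X z = ε * ((W.ν X z).natAbs : ℤ) := by
        rcases hε with h5 | h5
        · subst h5
          omega
        · subst h5
          omega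
      have h6 : (W.ν X z : ℂ) = ((ε * ((W.ν X z).natAbs : ℤ) : ℤ) : ℂ) := by
        exact_mod_cast congrArg (fun x : ℤ => (x : ℂ)) h4
      rw [h6, Int.cast_mul, Int.cast_natCast, Rat.cast_intCast]
    rw [h3]
    ring

lemma ty_of_mono {ε : ℤ} (hε : ε = 1 ∨ ε = -1) {X Y : C} (hY : Ty W ε Y) (f : X ⟶ Y)
    [hf : Mono f] : Ty W ε X := by
  have hS : (ShortComplex.mk f (cokernel.π f) (cokernel.condition f)).ShortExact :=
    { exact := ShortComplex.exact_cokernel f
      mono_f := hf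
      epi_g := inferInstanceAs (Epi (cokernel.π f)) }
  intro z
  have h1 := W.ν_add hS z
  change W.ν Y z = W.ν X z + W.ν (cokernel f) z at h1
  have h2 := hY z
  have h3 : ¬ (0 < W.ν X z ∧ W.ν (cokernel f) z < 0) := fun h => W.sign_const _ _ z h.1 h.2
  have h4 : ¬ (0 < W.ν (cokernel f) z ∧ W.ν X z < 0) := fun h => W.sign_const _ _ z h.1 h.2
  rcases hε with h5 | h5
  · subst h5
    omega
  · subst h5
    omega

variable {D : Type u'} [Category.{v'} D] [Preadditive D] [MonoidalCategory D]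
  [MonoidalPreadditive D]
variable (H : C ⥤ D) [H.Monoidal] [H.PreservesZeroMorphisms]

include W in
lemma unit_ne (hD : 𝟙 (𝟙_ D) ≠ 0) {f : 𝟙_ C ⟶ 𝟙_ C} (hf : f ≠ 0) : H.map f ≠ 0 := by
  intro h
  have h1 := W.val_spec f
  have h2 : W.val f ≠ 0 := by
    intro h3
    rw [h3, zero_smul] at h1
    exact hf h1
  obtain ⟨c, hc⟩ : ∃ c, c = W.val f := ⟨_, rfl⟩
  rw [← hc] at h1 h2
  have h3 : 𝟙 (𝟙_ C) = (c⁻¹ • 𝟙 (𝟙_ C)) ≫ f := by
    rw [Linear.smul_comp, Category.id_comp, h1, smul_smul, inv_mul_cancel₀ h2, one_smul]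
  have h4 : H.map (𝟙 (𝟙_ C)) = 0 := by
    rw [h3, H.map_comp, h, Limits.comp_zero]
  apply hD
  have h5 : 𝟙 (𝟙_ D) = Functor.LaxMonoidal.ε H ≫ H.map (𝟙 (𝟙_ C)) ≫
      Functor.OplaxMonoidal.η H := by
    rw [H.map_id, Category.id_comp]
    exact (Functor.Monoidal.ε_η H).symm
  rw [h5, h4, Limits.zero_comp, Limits.comp_zero]

include W in
/-- the image of the top projector under `H` is non-zero -/
lemma top_ne (hD : 𝟙 (𝟙_ D) ≠ 0) {ε : ℤ} (hε : ε = 1 ∨ ε = -1) {X : C} (hX : Ty W ε X) (n : ℕ)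
    (hn : W.tv X = n + 1) : H.map (pj (ε : ℚ) X (n + 1)) ≠ 0 := by
  have hε' : (ε : ℚ) * ε = 1 := by
    rcases hε with h5 | h5 <;> subst h5 <;> norm_num
  obtain ⟨γ, hγ, ht⟩ := ty_gamma W hε hX
  have h0 : W.t X 0 = (ε : ℚ) * ((n + 1 : ℕ) : ℚ) := by
    have h1 := ht 0
    simp only [pow_zero, Multiset.map_const', Multiset.sum_replicate, nsmul_eq_mul, mul_one] at h1
    rw [hγ, hn] at h1
    exact_mod_cast h1
  intro h
  have h2 := map_tr_zero H _ h
  exact unit_ne W H hD (tr_top W hε' X n h0) h2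

include W in
/-- the case of objects of one type, monomorphisms -/
lemma mono_of_ty (hD : 𝟙 (𝟙_ D) ≠ 0) {ε : ℤ} (hε : ε = 1 ∨ ε = -1) {X Y : C} (hX : Ty W ε X)
    (hY : Ty W ε Y) (f : X ⟶ Y) (r : H.obj Y ⟶ H.obj X) (hr : H.map f ≫ r = 𝟙 _) : Mono f := by
  have hε' : (ε : ℚ) * ε = 1 := by
    rcases hε with h5 | h5 <;> subst h5 <;> norm_num
  set B := Abelian.image f with hB
  set p : X ⟶ B := Abelian.factorThruImage f with hp
  set i : B ⟶ Y := Abelian.image.ι f with hi
  have hpi : p ≫ i = f := Abelian.image.fac f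
  have hBt : Ty W ε B := ty_of_mono W hε hY i
  obtain ⟨γ, hγ, ht⟩ := ty_gamma W hε hBt
  have hX' : W.tv X ≤ W.tv B := by
    by_contra hcon
    obtain ⟨n, hn⟩ : ∃ n, W.tv X = n + 1 := ⟨W.tv X - 1, by omega⟩
    have h1 : Tm f (n + 1) ≫ pj (ε : ℚ) Y (n + 1) = 0 := by
      rw [← hpi, Tm_comp, Category.assoc, pj_nat, W.pj_zero hε' B γ ht n (by omega),
        Limits.zero_comp, Limits.comp_zero]
    rw [pj_nat] at h1
    obtain ⟨s, hs⟩ := splitMono_Tm H f r hr (n + 1)
    have h3 : H.map (pj (ε : ℚ) X (n + 1)) ≫ H.map (Tm f (n + 1)) = 0 := by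
      rw [← H.map_comp, h1, H.map_zero]
    have h4 : H.map (pj (ε : ℚ) X (n + 1)) = 0 := by
      have h5 : (H.map (pj (ε : ℚ) X (n + 1)) ≫ H.map (Tm f (n + 1))) ≫ s = 0 := by
        rw [h3, Limits.zero_comp]
      rw [Category.assoc, hs, Category.comp_id] at h5
      exact h5
    exact top_ne W H hD hε hX n hn h4
  have hS : (ShortComplex.mk (kernel.ι p) p (kernel.condition p)).ShortExact :=
    { exact := ShortComplex.exact_kernel p
      mono_f := inferInstanceAs (Mono (kernel.ι p))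
      epi_g := inferInstanceAs (Epi (Abelian.factorThruImage f)) }
  have h1 := W.tv_add hS
  change W.tv X = W.tv (kernel p) + W.tv B at h1
  have h2 : IsZero (kernel p) := by
    by_contra h3
    have := W.tv_pos h3
    omega
  have h3 : Mono p := Abelian.mono_of_kernel_ι_eq_zero p (h2.eq_of_src _ _)
  have h4 : Mono i := inferInstanceAs (Mono (Abelian.image.ι f))
  rw [← hpi]
  exact mono_comp p i

include W in
/-- the case of objects of one type, epimorphisms -/
lemma epi_of_ty (hD : 𝟙 (𝟙_ D) ≠ 0) {ε : ℤ} (hε : ε = 1 ∨ ε = -1) {X Y : C}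
    (hY : Ty W ε Y) (f : X ⟶ Y) (r : H.obj Y ⟶ H.obj X) (hr : r ≫ H.map f = 𝟙 _) : Epi f := by
  have hε' : (ε : ℚ) * ε = 1 := by
    rcases hε with h5 | h5 <;> subst h5 <;> norm_num
  set B := Abelian.image f with hB
  set p : X ⟶ B := Abelian.factorThruImage f with hp
  set i : B ⟶ Y := Abelian.image.ι f with hi
  have hpi : p ≫ i = f := Abelian.image.fac f
  have hBt : Ty W ε B := ty_of_mono W hε hY i
  obtain ⟨γ, hγ, ht⟩ := ty_gamma W hε hBt
  have hY' : W.tv Y ≤ W.tv B := by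
    by_contra hcon
    obtain ⟨n, hn⟩ : ∃ n, W.tv Y = n + 1 := ⟨W.tv Y - 1, by omega⟩
    have h1 : Tm f (n + 1) ≫ pj (ε : ℚ) Y (n + 1) = 0 := by
      rw [← hpi, Tm_comp, Category.assoc, pj_nat, W.pj_zero hε' B γ ht n (by omega),
        Limits.zero_comp, Limits.comp_zero]
    obtain ⟨s, hs⟩ := splitEpi_Tm H f r hr (n + 1)
    have h3 : H.map (Tm f (n + 1)) ≫ H.map (pj (ε : ℚ) Y (n + 1)) = 0 := by
      rw [← H.map_comp, h1, H.map_zero]
    have h4 : H.map (pj (ε : ℚ) Y (n + 1)) = 0 := by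
      have h5 : s ≫ (H.map (Tm f (n + 1)) ≫ H.map (pj (ε : ℚ) Y (n + 1))) = 0 := by
        rw [h3, Limits.comp_zero]
      rw [← Category.assoc, hs, Category.id_comp] at h5
      exact h5
    exact top_ne W H hD hε hY n hn h4
  have hS : (ShortComplex.mk i (cokernel.π i) (cokernel.condition i)).ShortExact :=
    { exact := ShortComplex.exact_cokernel i
      mono_f := inferInstanceAs (Mono (Abelian.image.ι f))
      epi_g := inferInstanceAs (Epi (cokernel.π i)) }
  have h1 := W.tv_add hS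
  change W.tv Y = W.tv B + W.tv (cokernel i) at h1
  have h2 : IsZero (cokernel i) := by
    by_contra h3
    have := W.tv_pos h3
    omega
  have h3 : Epi i := Abelian.epi_of_cokernel_π_eq_zero i (h2.eq_of_tgt _ _)
  have h4 : Epi p := inferInstanceAs (Epi (Abelian.factorThruImage f))
  rw [← hpi]
  exact epi_comp p i

/-- there are no morphisms between objects of different types -/
lemma hom_zero {ε : ℤ} (hε : ε = 1 ∨ ε = -1) {X Y : C} (hX : Ty W ε X) (hY : Ty W (-ε) Y)
    (f : X ⟶ Y) : f = 0 := by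
  classical
  have h1 : ((W.mult (Y ⊗ Xᘁ) : ℤ) : ℂ) = ((∑ z ∈ W.S Y, ∑ w ∈ W.S X,
      W.ν Y z * W.ν X w * (if z * w⁻¹ = 1 then 1 else 0) : ℤ) : ℂ) := by
    have h2 := W.mult_hom Y X
    push_cast
    rw [h2]
  have h2 : (W.mult (Y ⊗ Xᘁ) : ℤ) = ∑ z ∈ W.S Y, ∑ w ∈ W.S X,
      W.ν Y z * W.ν X w * (if z * w⁻¹ = 1 then 1 else 0) := by exact_mod_cast h1
  have h3 : ∑ z ∈ W.S Y, ∑ w ∈ W.S X,
      W.ν Y z * W.ν X w * (if z * w⁻¹ = 1 then 1 else 0) ≤ 0 := by
    apply Finset.sum_nonpos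
    intro z _
    apply Finset.sum_nonpos
    intro w _
    split_ifs
    · have h4 := hX w
      have h5 := hY z
      rw [mul_one]
      rcases hε with h6 | h6
      · subst h6
        nlinarith
      · subst h6
        nlinarith
    · simp
  have h4 : W.mult (Y ⊗ Xᘁ) = 0 := by omega
  have h5 := W.rank_hom_le X Y
  rw [h4, Nat.cast_zero, nonpos_iff_eq_zero, rank_zero_iff] at h5
  exact Subsingleton.elim _ _

/-- the decomposition of an object into its even part and its odd part -/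
lemma decomp_ty (X : C) : ∃ A B : C, Nonempty (X ≅ A ⊞ B) ∧ Ty W 1 A ∧ Ty W (-1) B := by
  classical
  obtain ⟨A, B, h, hA, hB⟩ := W.decomp X
  refine ⟨A, B, h, ?_, ?_⟩
  · intro z
    have h1 : W.ν A z = ((W.α X - W.β X).count z : ℤ) := by
      apply W.ν_unique A (fun w => ((W.α X - W.β X).count w : ℤ)) (W.α X - W.β X).toFinset
      · intro w hw
        rw [Multiset.mem_toFinset] at hw
        rw [Multiset.count_eq_zero.mpr hw]
        rfl
      · intro n
        rw [hA n, Finset.sum_multiset_map_count]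
        apply Finset.sum_congr rfl
        intro w _
        rw [nsmul_eq_mul]
        push_cast
        rfl
    rw [h1, one_mul]
    positivity
  · intro z
    have h1 : W.ν B z = -((W.β X - W.α X).count z : ℤ) := by
      apply W.ν_unique B (fun w => -((W.β X - W.α X).count w : ℤ)) (W.β X - W.α X).toFinset
      · intro w hw
        rw [Multiset.mem_toFinset] at hw
        rw [Multiset.count_eq_zero.mpr hw]
        rfl
      · intro n
        rw [hB n, Finset.sum_multiset_map_count, ← Finset.sum_neg_distrib]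
        apply Finset.sum_congr rfl
        intro w _
        rw [nsmul_eq_mul]
        push_cast
        ring
    rw [h1]
    simp

include W in
/-- block form of a morphism -/
lemma block {X Y : C} (f : X ⟶ Y) : ∃ (A B A' B' : C) (e : X ≅ A ⊞ B) (e' : Y ≅ A' ⊞ B')
    (a : A ⟶ A') (b : B ⟶ B'), Ty W 1 A ∧ Ty W 1 A' ∧ Ty W (-1) B ∧ Ty W (-1) B' ∧
      f = e.hom ≫ biprod.map a b ≫ e'.inv := by
  obtain ⟨A, B, ⟨e⟩, hA, hB⟩ := decomp_ty W X
  obtain ⟨A', B', ⟨e'⟩, hA', hB'⟩ := decomp_ty W Y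
  obtain ⟨g, hg⟩ : ∃ g, g = e.inv ≫ f ≫ e'.hom := ⟨_, rfl⟩
  have h12 : biprod.inl ≫ g ≫ biprod.snd = 0 := hom_zero W (Or.inl rfl) hA hB' _
  have h21 : biprod.inr ≫ g ≫ biprod.fst = 0 :=
    hom_zero W (ε := -1) (Or.inr rfl) hB (by simpa using hA') _
  refine ⟨A, B, A', B', e, e', biprod.inl ≫ g ≫ biprod.fst, biprod.inr ≫ g ≫ biprod.snd,
    hA, hA', hB, hB', ?_⟩
  have hgm : g = biprod.map (biprod.inl ≫ g ≫ biprod.fst) (biprod.inr ≫ g ≫ biprod.snd) := by
    ext
    · simp
    · simp [h12]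
    · simp [h21]
    · simp
  rw [← hgm, hg]
  simp

include W in
/-- `H` reflects monomorphisms which split in `D` -/
theorem reflects_mono (hD : 𝟙 (𝟙_ D) ≠ 0) {X Y : C} (f : X ⟶ Y) (hf : IsSplitMono (H.map f)) :
    Mono f := by
  obtain ⟨⟨r, hr⟩⟩ := hf
  obtain ⟨A, B, A', B', e, e', a, b, hA, hA', hB, hB', hfe⟩ := block W f
  have hae : biprod.inl ≫ e.inv ≫ f = a ≫ biprod.inl ≫ e'.inv := by
    rw [hfe, e.inv_hom_id_assoc, ← Category.assoc, biprod.inl_map, Category.assoc]
  have hbe : biprod.inr ≫ e.inv ≫ f = b ≫ biprod.inr ≫ e'.inv := by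
    rw [hfe, e.inv_hom_id_assoc, ← Category.assoc, biprod.inr_map, Category.assoc]
  have ha : H.map a ≫ (H.map (biprod.inl ≫ e'.inv) ≫ r ≫ H.map (e.hom ≫ biprod.fst)) = 𝟙 _ := by
    rw [← Category.assoc, ← H.map_comp, ← hae, ← Category.assoc biprod.inl, H.map_comp,
      Category.assoc, ← Category.assoc (H.map f), hr, Category.id_comp, ← H.map_comp]
    simp
  have hb : H.map b ≫ (H.map (biprod.inr ≫ e'.inv) ≫ r ≫ H.map (e.hom ≫ biprod.snd)) = 𝟙 _ := by
    rw [← Category.assoc, ← H.map_comp, ← hbe, ← Category.assoc biprod.inr, H.map_comp,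
      Category.assoc, ← Category.assoc (H.map f), hr, Category.id_comp, ← H.map_comp]
    simp
  have ha1 : Mono a := mono_of_ty W H hD (Or.inl rfl) hA hA' a _ ha
  have hb1 : Mono b := mono_of_ty W H hD (Or.inr rfl) hB hB' b _ hb
  have hm : Mono (biprod.map a b) := by
    constructor
    intro Z u v huv
    ext
    · rw [← cancel_mono a]
      have h1 := congrArg (fun w => w ≫ biprod.fst) huv
      simpa using h1
    · rw [← cancel_mono b]
      have h1 := congrArg (fun w => w ≫ biprod.snd) huv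
      simpa using h1
  rw [hfe]
  infer_instance

include W in
/-- `H` reflects epimorphisms which split in `D` -/
theorem reflects_epi (hD : 𝟙 (𝟙_ D) ≠ 0) {X Y : C} (f : X ⟶ Y) (hf : IsSplitEpi (H.map f)) :
    Epi f := by
  obtain ⟨⟨r, hr⟩⟩ := hf
  obtain ⟨A, B, A', B', e, e', a, b, hA, hA', hB, hB', hfe⟩ := block W f
  have hae : f ≫ e'.hom ≫ biprod.fst = e.hom ≫ biprod.fst ≫ a := by
    rw [hfe]
    simp
  have hbe : f ≫ e'.hom ≫ biprod.snd = e.hom ≫ biprod.snd ≫ b := by
    rw [hfe]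
    simp
  have ha : (H.map (biprod.inl ≫ e'.inv) ≫ r ≫ H.map (e.hom ≫ biprod.fst)) ≫ H.map a = 𝟙 _ := by
    rw [Category.assoc, Category.assoc, ← H.map_comp, Category.assoc, ← hae, H.map_comp f,
      ← Category.assoc r, hr, Category.id_comp, ← H.map_comp]
    simp
  have hb : (H.map (biprod.inr ≫ e'.inv) ≫ r ≫ H.map (e.hom ≫ biprod.snd)) ≫ H.map b = 𝟙 _ := by
    rw [Category.assoc, Category.assoc, ← H.map_comp, Category.assoc, ← hbe, H.map_comp f,
      ← Category.assoc r, hr, Category.id_comp, ← H.map_comp]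
    simp
  have ha1 : Epi a := epi_of_ty W H hD (Or.inl rfl) hA' a _ ha
  have hb1 : Epi b := epi_of_ty W H hD (Or.inr rfl) hB' b _ hb
  have hm : Epi (biprod.map a b) := by
    constructor
    intro Z u v huv
    ext
    · rw [← cancel_epi a]
      have h1 := congrArg (fun w => biprod.inl ≫ w) huv
      simpa using h1
    · rw [← cancel_epi b]
      have h1 := congrArg (fun w => biprod.inr ≫ w) huv
      simpa using h1
  rw [hfe]
  infer_instance

include W in
/-- a functor which preserves tensor products and zero morphisms reflects isomorphisms -/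
theorem conservative (hD : 𝟙 (𝟙_ D) ≠ 0) {X Y : C} (f : X ⟶ Y) (hf : IsIso (H.map f)) :
    IsIso f := by
  have h1 := reflects_mono W H hD f inferInstance
  have h2 := reflects_epi W H hD f inferInstance
  exact isIso_of_mono_of_epi f

end

end MotC
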