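import Pool.Agent.Mot.Len

/-!
# Tensor powers of morphisms and projectors (MP_6c4da4_ag, by helper83)
-/

open CategoryTheory MonoidalCategory BraidedCategory Limits Mot

universe v u v' u'

namespace MotC

noncomputable section

set_option linter.unusedSectionVars false

section Powers

variable {C : Type u} [Category.{v} C] [MonoidalCategory C] [SymmetricCategory C]

/-- the tensor powers of a morphism -/
def Tm {X Y : C} (f : X ⟶ Y) : ∀ n, T X n ⟶ T Y n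
  | 0 => 𝟙 (𝟙_ C)
  | n + 1 => Tm f n ⊗ₘ f

lemma Tm_succ {X Y : C} (f : X ⟶ Y) (n : ℕ) : Tm f (n + 1) = (Tm f n ⊗ₘ f) := rfl

lemma Tm_comp {X Y Z : C} (f : X ⟶ Y) (g : Y ⟶ Z) (n : ℕ) : Tm (f ≫ g) n = Tm f n ≫ Tm g n := by
  induction n with
  | zero => exact (Category.id_comp _).symm
  | succ n ih =>
    rw [Tm_succ, ih]
    exact (MonoidalCategory.tensorHom_comp_tensorHom _ _ _ _).symm

variable [Preadditive C] [Linear ℚ C] [MonoidalPreadditive C] [MonoidalLinear ℚ C]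

lemma stp_nat {ε N : ℚ} {P Q X Y : C} (a : P ⟶ Q) (f : X ⟶ Y) (A : P ⊗ X ⟶ P ⊗ X)
    (B : Q ⊗ Y ⟶ Q ⊗ Y) (h : (a ⊗ₘ f) ≫ B = A ≫ (a ⊗ₘ f)) :
    ((a ⊗ₘ f) ⊗ₘ f) ≫ stp ε N Q Y B = stp ε N P X A ≫ ((a ⊗ₘ f) ⊗ₘ f) := by
  have h1 : ((a ⊗ₘ f) ⊗ₘ f) ≫ B ▷ Y = A ▷ X ≫ ((a ⊗ₘ f) ⊗ₘ f) := by
    rw [← tensorHom_id, ← tensorHom_id, MonoidalCategory.tensorHom_comp_tensorHom,
      MonoidalCategory.tensorHom_comp_tensorHom, h, Category.comp_id, Category.id_comp]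
  have h2 := sw_nat' a f f
  obtain ⟨V, hV⟩ : ∃ V, V = ((a ⊗ₘ f) ⊗ₘ f) := ⟨_, rfl⟩
  rw [← hV] at h1 h2 ⊢
  have h3 : V ≫ (𝟙 ((Q ⊗ Y) ⊗ Y) - N • (ε • sw Q Y)) =
      (𝟙 ((P ⊗ X) ⊗ X) - N • (ε • sw P X)) ≫ V := by
    rw [Preadditive.comp_sub, Preadditive.sub_comp, Category.comp_id, Category.id_comp,
      Linear.comp_smul, Linear.comp_smul, Linear.smul_comp, Linear.smul_comp, h2]
  unfold stp
  rw [Linear.comp_smul, Linear.smul_comp, Category.assoc, Category.assoc, ← Category.assoc V, h1,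
    Category.assoc, ← Category.assoc V, h3, Category.assoc, h1]

/-- the projectors are natural -/
lemma pj_nat {ε : ℚ} {X Y : C} (f : X ⟶ Y) (n : ℕ) :
    Tm f (n + 1) ≫ pj ε Y (n + 1) = pj ε X (n + 1) ≫ Tm f (n + 1) := by
  induction n with
  | zero =>
    have h1 : pj ε Y (0 + 1) = 𝟙 _ := rfl
    have h2 : pj ε X (0 + 1) = 𝟙 _ := rfl
    rw [h1, h2]
    exact (Category.comp_id _).trans (Category.id_comp _).symm
  | succ n ih =>
    rw [pj_two, pj_two]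
    exact stp_nat (Tm f n) f (pj ε X (n + 1)) (pj ε Y (n + 1)) ih

end Powers

section Functor

variable {C : Type u} [Category.{v} C] [MonoidalCategory C] [SymmetricCategory C]
variable {D : Type u'} [Category.{v'} D] [Preadditive D] [MonoidalCategory D]
  [MonoidalPreadditive D]
variable (H : C ⥤ D) [H.Monoidal]

lemma splitMono_Tm {X Y : C} (f : X ⟶ Y) (r : H.obj Y ⟶ H.obj X) (hr : H.map f ≫ r = 𝟙 _)
    (n : ℕ) : ∃ s : H.obj (T Y n) ⟶ H.obj (T X n), H.map (Tm f n) ≫ s = 𝟙 _ := by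
  induction n with
  | zero =>
    refine ⟨𝟙 _, ?_⟩
    have h : H.map (𝟙 (𝟙_ C)) ≫ 𝟙 _ = 𝟙 _ := by rw [H.map_id, Category.comp_id]
    exact h
  | succ n ih =>
    obtain ⟨s, hs⟩ := ih
    have key : ∀ (P Q : C) (a : P ⟶ Q) (s : H.obj Q ⟶ H.obj P), H.map a ≫ s = 𝟙 _ →
        H.map (a ⊗ₘ f) ≫ (Functor.OplaxMonoidal.δ H Q Y ≫ (s ⊗ₘ r) ≫
          Functor.LaxMonoidal.μ H P X) = 𝟙 _ := by
      intro P Q a s hs
      rw [Functor.Monoidal.map_tensor, Category.assoc, Category.assoc,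
        Functor.Monoidal.μ_δ_assoc, ← Category.assoc (H.map a ⊗ₘ H.map f),
        MonoidalCategory.tensorHom_comp_tensorHom, hs, hr, MonoidalCategory.id_tensorHom_id,
        Category.id_comp, Functor.Monoidal.δ_μ]
    exact ⟨_, key (T X n) (T Y n) (Tm f n) s hs⟩

lemma splitEpi_Tm {X Y : C} (f : X ⟶ Y) (r : H.obj Y ⟶ H.obj X) (hr : r ≫ H.map f = 𝟙 _)
    (n : ℕ) : ∃ s : H.obj (T Y n) ⟶ H.obj (T X n), s ≫ H.map (Tm f n) = 𝟙 _ := by
  induction n with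
  | zero =>
    refine ⟨𝟙 _, ?_⟩
    have h : 𝟙 _ ≫ H.map (𝟙 (𝟙_ C)) = 𝟙 _ := by rw [H.map_id, Category.comp_id]
    exact h
  | succ n ih =>
    obtain ⟨s, hs⟩ := ih
    have key : ∀ (P Q : C) (a : P ⟶ Q) (s : H.obj Q ⟶ H.obj P), s ≫ H.map a = 𝟙 _ →
        (Functor.OplaxMonoidal.δ H Q Y ≫ (s ⊗ₘ r) ≫
          Functor.LaxMonoidal.μ H P X) ≫ H.map (a ⊗ₘ f) = 𝟙 _ := by
      intro P Q a s hs
      rw [Functor.Monoidal.map_tensor, Category.assoc, Category.assoc,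
        Functor.Monoidal.μ_δ_assoc, ← Category.assoc (s ⊗ₘ r),
        MonoidalCategory.tensorHom_comp_tensorHom, hs, hr, MonoidalCategory.id_tensorHom_id,
        Category.id_comp, Functor.Monoidal.δ_μ]
    exact ⟨_, key (T X n) (T Y n) (Tm f n) s hs⟩

variable [Preadditive C] [RightRigidCategory C]

lemma map_tr_zero {X : C} (g : X ⟶ X) (h : H.map g = 0) : H.map (tr X g) = 0 := by
  have h1 : H.map (g ▷ Xᘁ) = 0 := by
    rw [Functor.Monoidal.map_whiskerRight, h, MonoidalPreadditive.zero_whiskerRight,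
      Limits.zero_comp, Limits.comp_zero]
  unfold tr trP
  rw [H.map_comp, H.map_comp, h1, Limits.zero_comp, Limits.comp_zero]

end Functor

end

end MotC
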